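import Pool.Agent.V11167.MonoD

/-! MP_9c8b61_co, Q1 (affirmative answer). -/

namespace Pool.Agent.Results.MP_9c8b61_co.DenseCover

open Pool.Agent.V11167.Mono Filter

theorem result : ∃ α : ℝ, 0 < α ∧ ∃ A : ℕ → Finset E2,
    (∀ n, (A n).card = n ∧ GenPos (A n) ∧ Dense α (A n)) ∧
    Tendsto (fun n : ℕ => (mc (A n) : ℝ) / n) atTop atTop :=
  ⟨12, by norm_num, An, fun n => ⟨card_An n, genPos_An n, dense_An n⟩, tendsto_mc⟩

end Pool.Agent.Results.MP_9c8b61_co.DenseCover
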